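import Pool.Agent.H459Z.Rev.Main

set_option autoImplicit false

namespace Pool.Agent.Results.MP_cc637b_co.AStrongForever

open Pool.Agent.H459Z.Rev

/-- The connection set `{1, …, k, k², -(k+1), …, -2k}`. -/
noncomputable def conn (k : ℕ) : Finset ℤ :=
  insert ((k : ℤ) ^ 2) (Finset.Icc (1 : ℤ) k ∪ Finset.Icc (-2 * (k : ℤ)) (-k - 1))

theorem mem_conn {k : ℕ} {s : ℤ} :
    s ∈ conn k ↔ s = (k : ℤ) ^ 2 ∨ (1 ≤ s ∧ s ≤ k) ∨ (-2 * (k : ℤ) ≤ s ∧ s ≤ -k - 1) := by
  simp [conn]

theorem sum_conn {k : ℕ} (hk : 3 ≤ k) : ∑ s ∈ conn k, s = 0 := by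
  have hk' : (3 : ℤ) ≤ k := by exact_mod_cast hk
  unfold conn
  rw [Finset.sum_insert, Finset.sum_union]
  · have e : Finset.Icc (-2 * (k : ℤ)) (-k - 1) = 
        (Finset.Icc (1 : ℤ) k).image (fun s : ℤ => -s - (k : ℤ)) := by
      ext s
      simp only [Finset.mem_Icc, Finset.mem_image]
      constructor
      · intro h; exact ⟨-s - k, by omega, by ring⟩
      · rintro ⟨a, h, rfl⟩; omega
    rw [e, Finset.sum_image (fun a _ b _ h => by simpa using h), ← Finset.sum_add_distrib]
    have : ∀ s ∈ Finset.Icc (1 : ℤ) k, s + (-s - k) = -(k : ℤ) := fun s _ => by ring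
    rw [Finset.sum_congr rfl this]
    simp
    ring
  · rw [Finset.disjoint_left]
    intro a h1 h2
    simp only [Finset.mem_Icc] at h1 h2
    omega
  · simp only [Finset.mem_union, Finset.mem_Icc]
    have : (k : ℤ) < k ^ 2 := by nlinarith
    omega

theorem exists_avoid (X : Finset ℤ) (k : ℕ) (hX : X.card < k) (a : ℤ) :
    ∃ w, a < w ∧ w ≤ a + k ∧ w ∉ X := by
  by_contra h
  push Not at h
  have : Finset.Ioc a (a + k) ⊆ X := fun w hw =>
    h w (Finset.mem_Ioc.1 hw).1 (Finset.mem_Ioc.1 hw).2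
  have := Finset.card_le_card this
  simp at this
  omega

theorem conn_strong {k : ℕ} (X : Finset ℤ) (hX : X.card < k) (u v : ℤ) (hu : u ∉ X) (hv : v ∉ X) :
    Relation.ReflTransGen (fun a b => b - a ∈ conn k ∧ a ∉ X ∧ b ∉ X) u v := by
  have up : ∀ (n : ℕ) (a : ℤ), a ∉ X → a ≤ v → v - a ≤ n →
      Relation.ReflTransGen (fun a b => b - a ∈ conn k ∧ a ∉ X ∧ b ∉ X) a v := by
    intro n
    induction n with
    | zero =>
      intro a _ h1 h2
      have : a = v := by omega
      rw [this]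
    | succ n ih =>
      intro a ha h1 h2
      by_cases e : a = v
      · rw [e]
      by_cases e' : v - a ≤ k
      · exact Relation.ReflTransGen.single ⟨mem_conn.2 (by omega), ha, hv⟩
      · obtain ⟨w, w1, w2, w3⟩ := exists_avoid X k hX a
        exact Relation.ReflTransGen.head ⟨mem_conn.2 (by omega), ha, w3⟩
          (ih w w3 (by omega) (by omega))
  have down : ∀ (n : ℕ) (a : ℤ), a ∉ X → a - v ≤ n →
      Relation.ReflTransGen (fun a b => b - a ∈ conn k ∧ a ∉ X ∧ b ∉ X) a v := by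
    intro n
    induction n with
    | zero =>
      intro a ha h
      exact up (v - a).toNat a ha (by omega) (by omega)
    | succ n ih =>
      intro a ha h
      obtain ⟨w, w1, w2, w3⟩ := exists_avoid X k hX (a - 2 * k - 1)
      exact Relation.ReflTransGen.head ⟨mem_conn.2 (by omega), ha, w3⟩ (ih w w3 (by omega))
  exact down (u - v).toNat u hu (by omega)

/-- For every `k` there is a locally finite `k`-strong oriented graph on the integers that is still
strong after every reversal sequence; its only strong component is then infinite. -/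
theorem result (k : ℕ) : ∃ D : ℤ → ℤ → Prop,
    (∀ u v, D u v → ¬ D v u) ∧
    (∀ u, {v | D u v ∨ D v u}.Finite) ∧
    (∀ X : Finset ℤ, X.card < k → ∀ u v, u ∉ X → v ∉ X →
      Relation.ReflTransGen (fun a b => D a b ∧ a ∉ X ∧ b ∉ X) u v) ∧
    ∀ (C : Ordinal.{0} → List ℤ) (ζ : Ordinal.{0}) (F : ℤ → ℤ → Prop), RS D C ζ F →
      ∀ u v, Relation.ReflTransGen F u v := by
  have hk : (3 : ℤ) ≤ ((k + 3 : ℕ) : ℤ) := by omega
  have hsq : 2 * ((k + 3 : ℕ) : ℤ) < ((k + 3 : ℕ) : ℤ) ^ 2 := by nlinarith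
  have hneg : ∀ s ∈ conn (k + 3), -s ∉ conn (k + 3) := by
    intro s h1 h2
    rw [mem_conn] at h1 h2
    omega
  have h1 : (1 : ℤ) ∈ conn (k + 3) := mem_conn.2 (by omega)
  have hN : ∀ u v : ℤ, v - u ∈ conn (k + 3) → |u - v| ≤ (((k + 3) ^ 2 : ℕ) : ℤ) := by
    intro u v h
    rw [mem_conn] at h
    rw [abs_le, Nat.cast_pow]
    omega
  have hinv := cayley_inv (conn (k + 3)) h1 hneg (sum_conn (by omega))
  refine ⟨fun u v => v - u ∈ conn (k + 3), hinv.ori, ?_, ?_, ?_⟩
  · intro u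
    refine (Set.finite_Icc (u - ((k + 3) ^ 2 : ℕ)) (u + ((k + 3) ^ 2 : ℕ))).subset ?_
    rintro v (h | h)
    · have := abs_le.1 (hN _ _ h)
      constructor <;> omega
    · have := abs_le.1 (hN _ _ h)
      constructor <;> omega
  · intro X hX u v hu hv
    exact conn_strong X (by omega) u v hu hv
  · intro C ζ F h u v
    exact strong_of_inv ((k + 3) ^ 2) (fun i => by simpa using h1) hN (RS.inv hinv h) u v

end Pool.Agent.Results.MP_cc637b_co.AStrongForever
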